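import Pool.Agent.Helper62.GR.Goals

/-!
# Project GR (MP_08df5f_al), packet KS: the chain of kernels is strictly increasing
-/

set_option autoImplicit false

namespace Pool.Agent.Helper32.GR

open Equiv Pool.Agent.Helper62.GR

/-- the endomorphism of the free group -/
def phi : FreeGroup Lt →* FreeGroup Lt := FreeGroup.lift fun l => match l with
  | .a => FreeGroup.of .a * FreeGroup.of .c * FreeGroup.of .a
  | .b => FreeGroup.of .d
  | .c => FreeGroup.of .b
  | .d => FreeGroup.of .c

/-- the left sections -/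
def theta : FreeGroup Lt →* FreeGroup Lt := FreeGroup.lift fun l => match l with
  | .a => FreeGroup.of .d
  | .b => 1
  | .c => FreeGroup.of .a
  | .d => FreeGroup.of .a

theorem Ph_phi (w : FreeGroup Lt) : ∀ x, Ph (phi w) (true, x) = (true, w * x) ∧
    Ph (phi w) (false, x) = (false, theta w * x) := by
  induction w using FreeGroup.induction_on with
  | C1 => simp
  | of l => cases l <;> simp [phi, theta, Ph, genF, sF, secl, isA, Perm.mul_apply]
  | inv_of l ih =>
    intro x
    constructor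
    · rw [map_inv, map_inv, Perm.inv_eq_iff_eq, (ih _).1]
      simp
    · rw [map_inv, map_inv, Perm.inv_eq_iff_eq, (ih _).2]
      simp
  | mul a b ha hb =>
    intro x
    constructor
    · rw [map_mul, map_mul, Perm.mul_apply, (hb _).1, (ha _).1, mul_assoc]
    · rw [map_mul, map_mul, Perm.mul_apply, (hb _).2, (ha _).2, map_mul, mul_assoc]

theorem phi_mem (k : ℕ) (w : FreeGroup Lt) :
    phi w ∈ KK (k + 1) ↔ w ∈ KK k ∧ theta w ∈ KK k := by
  constructor
  · intro h
    obtain ⟨v, hv, h1⟩ := h true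
    obtain ⟨v', hv', h2⟩ := h false
    rw [(Ph_phi w 1).1, mul_one] at h1
    rw [(Ph_phi w 1).2, mul_one] at h2
    have h3 : w = v := (Prod.ext_iff.1 h1).2
    have h4 : theta w = v' := (Prod.ext_iff.1 h2).2
    rw [h4, h3]
    exact ⟨hv, hv'⟩
  · rintro ⟨h1, h2⟩ i
    cases i
    · exact ⟨_, h2, by rw [(Ph_phi w 1).2, mul_one]⟩
    · exact ⟨_, h1, by rw [(Ph_phi w 1).1, mul_one]⟩

theorem theta_mem (w : FreeGroup Lt) :
    theta w ∈ Subgroup.closure {FreeGroup.of Lt.a, FreeGroup.of Lt.d} := by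
  have ha : FreeGroup.of Lt.a ∈ Subgroup.closure {FreeGroup.of Lt.a, FreeGroup.of Lt.d} :=
    Subgroup.subset_closure (by simp)
  have hd : FreeGroup.of Lt.d ∈ Subgroup.closure {FreeGroup.of Lt.a, FreeGroup.of Lt.d} :=
    Subgroup.subset_closure (by simp)
  have hg : ∀ l, theta (FreeGroup.of l) ∈
      Subgroup.closure {FreeGroup.of Lt.a, FreeGroup.of Lt.d} := by
    intro l
    cases l
    · simpa [theta] using hd
    · simp [theta]
    · simpa [theta] using ha
    · simpa [theta] using ha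
  induction w using FreeGroup.induction_on with
  | C1 => rw [map_one]; exact Subgroup.one_mem _
  | of l => exact hg l
  | inv_of l ih => rw [map_inv]; exact Subgroup.inv_mem _ ih
  | mul a b ha hb => rw [map_mul]; exact Subgroup.mul_mem _ ha hb

theorem sq_mem {l : Lt} : FreeGroup.of l ^ 2 ∈ K0 := by
  refine Subgroup.subset_normalClosure ?_
  cases l <;> simp

theorem ad_mem : (FreeGroup.of Lt.a * FreeGroup.of Lt.d) ^ 4 ∈ KK 1 := by
  intro i
  refine ⟨FreeGroup.of Lt.b ^ 2, sq_mem, ?_⟩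
  cases i <;> simp [Ph, genF, sF, secl, isA, Perm.mul_apply, pow_succ]

/-- the homomorphism to the dihedral group -/
def dh : FreeGroup Lt →* DihedralGroup 5 := FreeGroup.lift fun l => match l with
  | .a => DihedralGroup.sr 0
  | .b => 1
  | .c => DihedralGroup.sr 1
  | .d => DihedralGroup.sr 1

theorem ad_not_mem : (FreeGroup.of Lt.a * FreeGroup.of Lt.d) ^ 4 ∉ KK 0 := by
  intro h
  have h1 : K0 ≤ dh.ker := by
    refine Subgroup.normalClosure_le_normal ?_
    intro x hx
    simp only [Set.mem_insert_iff, Set.mem_singleton_iff] at hx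
    rw [SetLike.mem_coe, MonoidHom.mem_ker]
    rcases hx with h | h | h | h | h <;> subst h <;>
      simp only [map_pow, map_mul, dh, FreeGroup.lift_apply_of] <;> decide
  have h2 : dh ((FreeGroup.of Lt.a * FreeGroup.of Lt.d) ^ 4) = 1 := h1 h
  simp only [map_pow, map_mul, dh, FreeGroup.lift_apply_of] at h2
  revert h2
  decide

theorem pow4_mem (h1 : G_KN) (h2 : G_DI) (u : FreeGroup Lt)
    (hu : u ∈ Subgroup.closure {FreeGroup.of Lt.a, FreeGroup.of Lt.d}) : u ^ 4 ∈ KK 1 := by
  obtain ⟨S, hS, hS1⟩ := h1.1 1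
  have := hS
  have hmem : ∀ {x : FreeGroup Lt}, x ∈ KK 1 → x ∈ S := by
    intro x hx
    rw [← hS1] at hx
    exact hx
  have hsq : ∀ l, FreeGroup.of l * FreeGroup.of l ∈ S := by
    intro l
    rw [← pow_two]
    exact hmem (h1.2.1 0 sq_mem)
  have hm : ((u : FreeGroup Lt ⧸ S)) ∈ Subgroup.closure
      {(FreeGroup.of Lt.a : FreeGroup Lt ⧸ S), (FreeGroup.of Lt.d : FreeGroup Lt ⧸ S)} := by
    have h3 := Subgroup.mem_map_of_mem (QuotientGroup.mk' S) hu
    rw [MonoidHom.map_closure, Set.image_pair] at h3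
    exact h3
  have h4 := h2 (FreeGroup Lt ⧸ S) (FreeGroup.of Lt.a : FreeGroup Lt ⧸ S)
    (FreeGroup.of Lt.d : FreeGroup Lt ⧸ S)
    (by rw [← QuotientGroup.mk_mul, QuotientGroup.eq_one_iff]; exact hsq _)
    (by rw [← QuotientGroup.mk_mul, QuotientGroup.eq_one_iff]; exact hsq _)
    (by
      rw [← QuotientGroup.mk_mul, ← QuotientGroup.mk_pow, QuotientGroup.eq_one_iff]
      exact hmem ad_mem)
    _ hm
  rw [← QuotientGroup.mk_pow, QuotientGroup.eq_one_iff] at h4
  rw [← hS1]
  exact h4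

/-- PACKET KS -/
theorem ks (h1 : G_KN) (h2 : G_DI) : G_KS := by
  have hmono : ∀ k, KK 1 ⊆ KK (k + 1) := by
    intro k
    induction k with
    | zero => exact subset_rfl
    | succ k ih => exact ih.trans (h1.2.1 (k + 1))
  have key : ∀ k, phi^[k] ((FreeGroup.of Lt.a * FreeGroup.of Lt.d) ^ 4) ∈ KK (k + 1) ∧
      phi^[k] ((FreeGroup.of Lt.a * FreeGroup.of Lt.d) ^ 4) ∉ KK k := by
    intro k
    induction k with
    | zero => exact ⟨ad_mem, ad_not_mem⟩
    | succ k ih =>
      rw [Function.iterate_succ_apply', phi_mem, phi_mem]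
      refine ⟨⟨ih.1, ?_⟩, fun h => ih.2 h.1⟩
      rw [iterate_map_pow, map_pow]
      exact hmono k (pow4_mem h1 h2 _ (theta_mem _))
  intro k
  exact ⟨_, key k⟩

end Pool.Agent.Helper32.GR
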